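import Mathlib
import Pool.Agent.H43.SAK.Stmts

/-!
Project SAK, module TREE: the inequality for sets with small branching.
-/

namespace Pool.Agent.H43.SAK

open Finset

/-- reduction mod `p` -/
def trRed {d : ℕ} (p : ℕ) (g : Fin d → ℤ) : Fin d → ZMod p := fun i => (g i : ZMod p)

/-- representatives -/
def trLift {d p : ℕ} (w : Fin d → ZMod p) : Fin d → ℤ := fun i => ((w i).val : ℤ)

/-- division by `p` -/
def trDiv {d : ℕ} (p : ℕ) (g : Fin d → ℤ) : Fin d → ℤ := fun i => g i / (p : ℤ)

lemma tr_eq {d p : ℕ} [NeZero p] (g : Fin d → ℤ) : g = (p : ℤ) • trDiv p g + trLift (trRed p g) := by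
  funext i
  simp only [Pi.add_apply, Pi.smul_apply, trDiv, trLift, trRed, smul_eq_mul]
  rw [ZMod.val_intCast]
  exact (Int.mul_ediv_add_emod (g i) p).symm

lemma tr_red_add {d p : ℕ} (a b : Fin d → ℤ) : trRed p (a + b) = trRed p a + trRed p b := by
  funext i; simp [trRed]

lemma tr_red_smul {d p : ℕ} (k : ℤ) (a : Fin d → ℤ) : trRed p (k • a) = (k : ZMod p) • trRed p a := by
  funext i; simp [trRed]

lemma pr_add {d p : ℕ} (t : ZMod p) (a b : (Fin d → ℤ) × (Fin d → ℤ)) :
    pr p t (a + b) = pr p t a + pr p t b := by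
  unfold pr
  split_ifs
  · rfl
  · simp only [Prod.fst_add, Prod.snd_add, smul_add]
    abel

lemma pr_smul {d p : ℕ} (t : ZMod p) (k : ℤ) (a : (Fin d → ℤ) × (Fin d → ℤ)) :
    pr p t (k • a) = k • pr p t a := by
  unfold pr
  split_ifs
  · rfl
  · simp only [Prod.smul_fst, Prod.smul_snd, smul_add]
    rw [smul_comm]

/-- the projections modulo `p` -/
def prm {d p : ℕ} (t : ZMod p) (q : (Fin d → ZMod p) × (Fin d → ZMod p)) : Fin d → ZMod p :=
  if t = 0 then q.2 else q.1 + t⁻¹ • q.2

lemma tr_red_pr {d p : ℕ} [Fact p.Prime] (t : ZMod p) (a : (Fin d → ℤ) × (Fin d → ℤ)) :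
    trRed p (pr p t a) = prm t (trRed p a.1, trRed p a.2) := by
  unfold pr prm
  split_ifs with h
  · rfl
  · rw [tr_red_add, tr_red_smul]
    simp

lemma tr_emod (p M x l : ℤ) (hp : 0 < p) (hM : 0 < M) (h0 : 0 ≤ l) (h1 : l < p) :
    (p * x + l) % (p * M) = p * (x % M) + l := by
  have h2 : p * x + l = (p * (x % M) + l) + (p * M) * (x / M) := by
    have := Int.mul_ediv_add_emod x M
    calc p * x + l = p * (M * (x / M) + x % M) + l := by rw [this]
      _ = _ := by ring
  rw [h2, Int.add_mul_emod_self_left]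
  apply Int.emod_eq_of_lt
  · have := Int.emod_nonneg x hM.ne'
    positivity
  · have h3 := Int.emod_lt_of_pos x hM
    nlinarith

lemma tr_lift_nonneg {d p : ℕ} (w : Fin d → ZMod p) (i : Fin d) : 0 ≤ trLift w i := by
  simp [trLift]

lemma tr_lift_lt {d p : ℕ} [NeZero p] (w : Fin d → ZMod p) (i : Fin d) : trLift w i < p := by
  simp only [trLift]
  exact_mod_cast ZMod.val_lt (w i)

lemma tr_lift_inj {d p : ℕ} [NeZero p] (w w' : Fin d → ZMod p) (h : trLift w = trLift w') : w = w' := by
  funext i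
  have := congrFun h i
  simp only [trLift] at this
  exact ZMod.val_injective p (by exact_mod_cast this)

lemma tr_lift_red {d p : ℕ} [NeZero p] (g : Fin d → ℤ) (i : Fin d) :
    trLift (trRed p g) i = g i % p := by
  simp only [trLift, trRed]
  rw [ZMod.val_intCast]

/-- the class of a point mod `p` -/
def trCl {d : ℕ} (p : ℕ) (a : (Fin d → ℤ) × (Fin d → ℤ)) : (Fin d → ZMod p) × (Fin d → ZMod p) :=
  (trRed p a.1, trRed p a.2)

/-- division of a point -/
def trDv {d : ℕ} (p : ℕ) (a : (Fin d → ℤ) × (Fin d → ℤ)) : (Fin d → ℤ) × (Fin d → ℤ) :=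
  (trDiv p a.1, trDiv p a.2)

/-- representative of a class -/
def trLf {d p : ℕ} (q : (Fin d → ZMod p) × (Fin d → ZMod p)) : (Fin d → ℤ) × (Fin d → ℤ) :=
  (trLift q.1, trLift q.2)

lemma tr_pt {d p : ℕ} [NeZero p] (a : (Fin d → ℤ) × (Fin d → ℤ)) :
    a = (p : ℤ) • trDv p a + trLf (trCl p a) := by
  ext1
  · exact tr_eq a.1
  · exact tr_eq a.2

lemma tr_cg {d p : ℕ} [NeZero p] (K : ℕ) (g g' : Fin d → ℤ) (h : trRed p g = trRed p g')
    (h' : cg ((p : ℤ) ^ K) (trDiv p g) (trDiv p g')) : cg ((p : ℤ) ^ (K + 1)) g g' := by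
  intro i
  have e1 := congrFun (tr_eq (p := p) g) i
  have e2 := congrFun (tr_eq (p := p) g') i
  have e3 : g i - g' i = (p : ℤ) * (trDiv p g i - trDiv p g' i) := by
    rw [e1, e2, h]
    simp only [Pi.add_apply, Pi.smul_apply, smul_eq_mul]
    ring
  rw [e3, pow_succ']
  exact mul_dvd_mul_left _ (h' i)

lemma tr_dv_inj {d p : ℕ} [NeZero p] (a b : (Fin d → ℤ) × (Fin d → ℤ)) (h : trCl p a = trCl p b)
    (h' : trDv p a = trDv p b) : a = b := by
  rw [tr_pt (p := p) a, tr_pt (p := p) b, h, h']

lemma tr_pr {d p : ℕ} [NeZero p] (t : ZMod p) (a : (Fin d → ℤ) × (Fin d → ℤ)) :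
    pr p t a = (p : ℤ) • pr p t (trDv p a) + pr p t (trLf (trCl p a)) := by
  conv_lhs => rw [tr_pt (p := p) a]
  rw [pr_add, pr_smul]

lemma tr_br {d p : ℕ} [NeZero p] (A : Finset ((Fin d → ℤ) × (Fin d → ℤ))) (B : ℕ → ℕ) (hB : Br p A B)
    (A' : Finset ((Fin d → ℤ) × (Fin d → ℤ))) (q : (Fin d → ZMod p) × (Fin d → ZMod p))
    (hA' : ∀ a' ∈ A', ∃ a ∈ A, trCl p a = q ∧ trDv p a = a') : Br p A' (fun j => B (j + 1)) := by
  classical
  intro j a' ha'
  obtain ⟨a, ha, haq, rfl⟩ := hA' a' ha'
  refine le_trans ?_ (hB (j + 1) a ha)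
  have hp : (0 : ℤ) < p := by exact_mod_cast Nat.pos_of_ne_zero (NeZero.ne p)
  apply Finset.card_le_card_of_injOn (fun y => fun i => (p : ℤ) * y i + trLift q.2 i)
  · intro y hy
    rw [Finset.mem_coe, Finset.mem_image] at hy
    obtain ⟨b', hb', rfl⟩ := hy
    rw [Finset.mem_filter] at hb'
    obtain ⟨hb'A, h1, h2⟩ := hb'
    obtain ⟨b, hb, hbq, rfl⟩ := hA' b' hb'A
    rw [Finset.mem_coe, Finset.mem_image]
    refine ⟨b, ?_, ?_⟩
    · rw [Finset.mem_filter]
      refine ⟨hb, ?_, ?_⟩
      · exact tr_cg _ _ _ (by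
          have := congrArg Prod.fst (hbq.trans haq.symm)
          exact this) h1
      · exact tr_cg _ _ _ (by
          have := congrArg Prod.snd (hbq.trans haq.symm)
          exact this) h2
    · funext i
      have e : b.2 i = (p : ℤ) * (trDv p b).2 i + trLift q.2 i := by
        have e1 := congrFun (tr_eq (p := p) b.2) i
        have e2 : trRed p b.2 = q.2 := congrArg Prod.snd hbq
        rw [e2] at e1
        exact e1
      rw [e, pow_succ' (p : ℤ) (j + 1)]
      exact tr_emod _ _ _ _ hp (pow_pos hp _) (tr_lift_nonneg _ _) (tr_lift_lt _ _)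
  · intro y _ z _ h
    funext i
    have h1 := congrFun h i
    simp only [add_left_inj] at h1
    exact mul_left_cancel₀ hp.ne' h1

lemma tr_node {d p : ℕ} [NeZero p] (A : Finset ((Fin d → ℤ) × (Fin d → ℤ))) (B : ℕ → ℕ) (hB : Br p A B)
    [DecidableEq ((Fin d → ZMod p) × (Fin d → ZMod p))] [DecidableEq (Fin d → ZMod p)]
    (w : Fin d → ZMod p) : ((A.image (trCl p)).filter (fun q => q.1 = w)).card ≤ B 0 := by
  classical
  rcases ((A.image (trCl p)).filter (fun q => q.1 = w)).eq_empty_or_nonempty with h | ⟨q, hq⟩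
  · rw [h]; simp
  rw [Finset.mem_filter, Finset.mem_image] at hq
  obtain ⟨⟨a, ha, rfl⟩, haw⟩ := hq
  refine le_trans ?_ (hB 0 a ha)
  apply Finset.card_le_card_of_injOn (fun q => trLift q.2)
  · intro q hq
    rw [Finset.mem_coe, Finset.mem_filter, Finset.mem_image] at hq
    obtain ⟨⟨b, hb, rfl⟩, hbw⟩ := hq
    rw [Finset.mem_coe, Finset.mem_image]
    refine ⟨b, ?_, ?_⟩
    · rw [Finset.mem_filter]
      refine ⟨hb, ?_, ?_⟩
      · intro i
        have h1 : ((b.1 i : ℤ) : ZMod p) = ((a.1 i : ℤ) : ZMod p) := congrFun (hbw.trans haw.symm) i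
        have h2 := (ZMod.intCast_eq_intCast_iff_dvd_sub (a.1 i) (b.1 i) p).mp h1.symm
        simpa using h2
      · intro i; simp
    · funext i
      have := tr_lift_red (p := p) b.2 i
      simp only [zero_add, pow_one]
      exact this.symm
  · intro q hq q' hq' h
    rw [Finset.mem_coe, Finset.mem_filter] at hq hq'
    exact Prod.ext (hq.2.trans hq'.2.symm) (tr_lift_inj _ _ h)

/-- the functional version, by induction -/
theorem tr_ind (p : ℕ) [Fact p.Prime] (c : ℝ) (hc : 0 < c) (hF : FunIneq p c) (d : ℕ)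
    [Fintype (ZMod p)] : ∀ (K : ℕ) (A : Finset ((Fin d → ℤ) × (Fin d → ℤ))) (B : ℕ → ℕ)
    (f : ZMod p → (Fin d → ℤ) → ℝ), (∀ t g, 0 ≤ f t g) → Br p A B →
    (∀ a ∈ A, ∀ b ∈ A, cg ((p : ℤ) ^ K) a.1 b.1 → cg ((p : ℤ) ^ K) a.2 b.2 → a = b) →
    ∑ a ∈ A, ∏ t : ZMod p, (f t (pr p t a)) ^ c ≤
      (∏ j ∈ Finset.range K, (B j : ℝ)) * ∏ t : ZMod p, (∑ g ∈ A.image (pr p t), f t g) ^ c := by
  classical
  intro K
  induction K with
  | zero =>
    intro A B f hf _ hsep
    simp only [Finset.range_zero, Finset.prod_empty, one_mul]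
    rcases A.eq_empty_or_nonempty with h | ⟨a, ha⟩
    · rw [h, Finset.sum_empty]
      exact Finset.prod_nonneg fun t _ => Real.rpow_nonneg (Finset.sum_nonneg fun g _ => hf t g) _
    · have hA : A = {a} := by
        ext b
        rw [Finset.mem_singleton]
        constructor
        · intro hb
          exact hsep b hb a ha (fun i => by simp) (fun i => by simp)
        · rintro rfl; exact ha
      rw [hA]
      simp
  | succ K ih =>
    intro A B f hf hBr hsep
    set h : ZMod p → (Fin d → ZMod p) → ℝ := fun t γ =>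
      ∑ g ∈ (A.image (pr p t)).filter (fun g => trRed p g = γ), f t g with hh
    have hh0 : ∀ t γ, 0 ≤ h t γ := fun t γ => Finset.sum_nonneg fun g _ => hf t g
    set H : (Fin d → ZMod p) × (Fin d → ZMod p) → ℝ := fun q => ∏ t : ZMod p, (h t (prm t q)) ^ c with hH
    have hH0 : ∀ q, 0 ≤ H q := fun q => Finset.prod_nonneg fun t _ => Real.rpow_nonneg (hh0 t _) _
    set P : ℝ := ∏ j ∈ Finset.range K, (B (j + 1) : ℝ) with hP
    have hP0 : 0 ≤ P := Finset.prod_nonneg fun j _ => Nat.cast_nonneg _
    -- one class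
    have hcl : ∀ q, ∑ a ∈ A.filter (fun a => trCl p a = q), ∏ t : ZMod p, (f t (pr p t a)) ^ c ≤ P * H q := by
      intro q
      have h1 := ih ((A.filter (fun a => trCl p a = q)).image (trDv p)) (fun j => B (j + 1))
        (fun t g' => f t ((p : ℤ) • g' + pr p t (trLf q))) (fun t g => hf t _)
        (tr_br A B hBr _ q (by
          intro a' ha'
          rw [Finset.mem_image] at ha'
          obtain ⟨a, ha, rfl⟩ := ha'
          rw [Finset.mem_filter] at ha
          exact ⟨a, ha.1, ha.2, rfl⟩))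
        (by
          intro a' ha' b' hb' e1 e2
          rw [Finset.mem_image] at ha' hb'
          obtain ⟨a, ha, rfl⟩ := ha'
          obtain ⟨b, hb, rfl⟩ := hb'
          rw [Finset.mem_filter] at ha hb
          have hab := ha.2.trans hb.2.symm
          rw [hsep a ha.1 b hb.1 (tr_cg _ _ _ (congrArg Prod.fst hab) e1)
            (tr_cg _ _ _ (congrArg Prod.snd hab) e2)])
      rw [Finset.sum_image] at h1
      swap
      · intro a ha b hb hab
        rw [Finset.mem_coe, Finset.mem_filter] at ha hb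
        exact tr_dv_inj a b (ha.2.trans hb.2.symm) hab
      have h2 : ∑ a ∈ A.filter (fun a => trCl p a = q), ∏ t : ZMod p, (f t (pr p t a)) ^ c =
          ∑ a ∈ A.filter (fun a => trCl p a = q),
            ∏ t : ZMod p, (f t ((p : ℤ) • pr p t (trDv p a) + pr p t (trLf q))) ^ c := by
        apply Finset.sum_congr rfl
        intro a ha
        rw [Finset.mem_filter] at ha
        apply Finset.prod_congr rfl
        intro t _
        rw [tr_pr t a, ha.2]
      rw [h2]
      refine h1.trans (mul_le_mul_of_nonneg_left ?_ hP0)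
      apply Finset.prod_le_prod
      · intro t _
        exact Real.rpow_nonneg (Finset.sum_nonneg fun g _ => hf t _) _
      · intro t _
        apply Real.rpow_le_rpow (Finset.sum_nonneg fun g _ => hf t _) _ hc.le
        rw [hh]
        simp only
        have hinj : Function.Injective (fun g' : Fin d → ℤ => (p : ℤ) • g' + pr p t (trLf q)) := by
          intro g g' e
          simp only [add_left_inj] at e
          have hp : (p : ℤ) ≠ 0 := by exact_mod_cast (Fact.out : p.Prime).ne_zero
          exact smul_right_injective _ hp e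
        rw [← Finset.sum_image (f := f t) (s := ((A.filter (fun a => trCl p a = q)).image
          (trDv p)).image (pr p t)) (g := fun g' : Fin d → ℤ => (p : ℤ) • g' + pr p t (trLf q))
          (fun x _ y _ e => hinj e)]
        apply Finset.sum_le_sum_of_subset_of_nonneg
        · intro g hg
          rw [Finset.mem_image] at hg
          obtain ⟨g', hg', rfl⟩ := hg
          rw [Finset.mem_image] at hg'
          obtain ⟨a', ha', rfl⟩ := hg'
          rw [Finset.mem_image] at ha'
          obtain ⟨a, ha, rfl⟩ := ha'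
          rw [Finset.mem_filter] at ha
          have e : (p : ℤ) • pr p t (trDv p a) + pr p t (trLf q) = pr p t a := by
            rw [tr_pr t a, ha.2]
          rw [Finset.mem_filter]
          rw [e]
          refine ⟨Finset.mem_image_of_mem _ ha.1, ?_⟩
          rw [tr_red_pr]
          congr 1
          exact ha.2
        · intro g _ _
          exact hf t g
    -- sum over the classes
    set Q := A.image (trCl p) with hQ
    have h1 : ∑ a ∈ A, ∏ t : ZMod p, (f t (pr p t a)) ^ c ≤ P * ∑ q ∈ Q, H q := by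
      rw [← Finset.sum_fiberwise_of_maps_to (s := A) (t := Q) (g := trCl p)
        (fun a ha => Finset.mem_image_of_mem _ ha), Finset.mul_sum]
      exact Finset.sum_le_sum fun q _ => hcl q
    -- the node
    set D := Q.image Prod.fst with hD
    have hx : ∀ w ∈ D, ∃ u, ∀ q ∈ Q, q.1 = w → H q ≤ H (w, u) := by
      intro w hw
      rw [hD, Finset.mem_image] at hw
      obtain ⟨q0, hq0, rfl⟩ := hw
      obtain ⟨q1, hq1, hmax⟩ := Finset.exists_max_image (Q.filter (fun q => q.1 = q0.1)) H
        ⟨q0, by simp [hq0]⟩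
      rw [Finset.mem_filter] at hq1
      refine ⟨q1.2, fun q hq hq' => ?_⟩
      have : (q0.1, q1.2) = q1 := Prod.ext hq1.2.symm rfl
      rw [this]
      exact hmax q (Finset.mem_filter.mpr ⟨hq, hq'⟩)
    choose! x hx using hx
    have h2 : ∑ q ∈ Q, H q ≤ (B 0 : ℝ) * ∑ w ∈ D, H (w, x w) := by
      rw [← Finset.sum_fiberwise_of_maps_to (s := Q) (t := D) (g := Prod.fst)
        (fun a ha => Finset.mem_image_of_mem _ ha), Finset.mul_sum]
      apply Finset.sum_le_sum
      intro w hw
      calc ∑ q ∈ Q with q.1 = w, H q ≤ ∑ q ∈ Q with q.1 = w, H (w, x w) := by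
            apply Finset.sum_le_sum
            intro q hq
            rw [Finset.mem_filter] at hq
            exact hx w hw q hq.1 hq.2
        _ = ((Q.filter (fun q => q.1 = w)).card : ℝ) * H (w, x w) := by
            rw [Finset.sum_const, nsmul_eq_mul]
        _ ≤ (B 0 : ℝ) * H (w, x w) := by
            apply mul_le_mul_of_nonneg_right _ (hH0 _)
            exact_mod_cast tr_node A B hBr w
    -- the functional inequality
    have h3 := hF (Fin d → ZMod p) D x (fun t y => h t (if t = 0 then y else t⁻¹ • y))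
      (fun t y => hh0 t _)
    have h4 : ∑ w ∈ D, H (w, x w) =
        ∑ v ∈ D, ∏ t : ZMod p, (h t (if t = 0 then (x v + t • v) else t⁻¹ • (x v + t • v))) ^ c := by
      apply Finset.sum_congr rfl
      intro w _
      rw [hH]
      simp only
      apply Finset.prod_congr rfl
      intro t _
      congr 2
      unfold prm
      split_ifs with ht
      · simp [ht]
      · rw [smul_add, smul_smul, inv_mul_cancel₀ ht, one_smul, add_comm]
    rw [← h4] at h3
    have h5 : ∀ t : ZMod p, ∑ y ∈ sl D x t, h t (if t = 0 then y else t⁻¹ • y) ≤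
        ∑ g ∈ A.image (pr p t), f t g := by
      intro t
      have h6 : ∑ g ∈ A.image (pr p t), f t g = ∑ γ : Fin d → ZMod p, h t γ := by
        rw [hh]
        simp only
        rw [Finset.sum_fiberwise]
      rw [h6]
      have hinj : Function.Injective (fun y : Fin d → ZMod p => if t = 0 then y else t⁻¹ • y) := by
        intro y y' e
        by_cases ht : t = 0
        · simpa [ht] using e
        · simp only [ht, if_false] at e
          exact smul_right_injective _ (inv_ne_zero ht) e
      rw [← Finset.sum_image (f := h t) (s := sl D x t)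
        (g := fun y : Fin d → ZMod p => if t = 0 then y else t⁻¹ • y) (fun x _ y _ e => hinj e)]
      apply Finset.sum_le_sum_of_subset_of_nonneg (Finset.subset_univ _)
      intro γ _ _
      exact hh0 t γ
    calc ∑ a ∈ A, ∏ t : ZMod p, (f t (pr p t a)) ^ c ≤ P * ∑ q ∈ Q, H q := h1
      _ ≤ P * ((B 0 : ℝ) * ∑ w ∈ D, H (w, x w)) := mul_le_mul_of_nonneg_left h2 hP0
      _ ≤ P * ((B 0 : ℝ) * ∏ t : ZMod p, (∑ g ∈ A.image (pr p t), f t g) ^ c) := by
          apply mul_le_mul_of_nonneg_left _ hP0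
          apply mul_le_mul_of_nonneg_left _ (Nat.cast_nonneg _)
          refine h3.trans (Finset.prod_le_prod ?_ ?_)
          · intro t _
            exact Real.rpow_nonneg (Finset.sum_nonneg fun g _ => hh0 t _) _
          · intro t _
            exact Real.rpow_le_rpow (Finset.sum_nonneg fun g _ => hh0 t _) (h5 t) hc.le
      _ = _ := by
          rw [Finset.prod_range_succ' (fun j => (B j : ℝ)) K, ← hP]
          ring

theorem tree : TreeSt := by
  classical
  intro p _ c hc hF d _ A B J hB hBr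
  set S : ℕ := ∑ a ∈ A, ∑ i, ((a.1 i).natAbs + (a.2 i).natAbs) with hS
  set K := J + 2 * S + 1 with hK
  have hp2 : 2 ≤ p := (Fact.out : p.Prime).two_le
  have hpK : (2 * S : ℤ) < (p : ℤ) ^ K := by
    have h1 : 2 * S < 2 ^ (2 * S) := Nat.lt_two_pow_self
    have h2 : 2 ^ (2 * S) ≤ p ^ (2 * S) := Nat.pow_le_pow_left hp2 _
    have h3 : p ^ (2 * S) ≤ p ^ K := Nat.pow_le_pow_right (by omega) (by omega)
    exact_mod_cast (h1.trans_le h2).trans_le h3
  have hle : ∀ a ∈ A, ∀ i, (a.1 i).natAbs + (a.2 i).natAbs ≤ S := by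
    intro a ha i
    have h1 : ∑ i, ((a.1 i).natAbs + (a.2 i).natAbs) ≤ S :=
      Finset.single_le_sum (f := fun a : (Fin d → ℤ) × (Fin d → ℤ) =>
        ∑ i, ((a.1 i).natAbs + (a.2 i).natAbs)) (fun _ _ => Nat.zero_le _) ha
    have h2 : (a.1 i).natAbs + (a.2 i).natAbs ≤ ∑ i, ((a.1 i).natAbs + (a.2 i).natAbs) :=
      Finset.single_le_sum (f := fun i => (a.1 i).natAbs + (a.2 i).natAbs)
        (fun _ _ => Nat.zero_le _) (Finset.mem_univ i)
    exact h2.trans h1
  have hz : ∀ x y : ℤ, x.natAbs ≤ S → y.natAbs ≤ S → (p : ℤ) ^ K ∣ x - y → x = y := by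
    intro x y hx hy hxy
    by_contra hne
    have h1 := Int.le_of_dvd (abs_pos.mpr (sub_ne_zero.mpr hne)) ((dvd_abs _ _).mpr hxy)
    have h2 : |x - y| ≤ 2 * S := by
      rw [abs_le]
      constructor <;> omega
    omega
  have h1 := tr_ind p c hc hF d K A B (fun _ _ => 1) (fun _ _ => zero_le_one) hBr (by
    intro a ha b hb e1 e2
    ext1
    · funext i
      exact hz _ _ (by have := hle a ha i; omega) (by have := hle b hb i; omega) (e1 i)
    · funext i
      exact hz _ _ (by have := hle a ha i; omega) (by have := hle b hb i; omega) (e2 i))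
  simp only [Real.one_rpow, Finset.prod_const_one, Finset.sum_const, nsmul_eq_mul, mul_one] at h1
  have h2 : ∏ j ∈ Finset.range K, (B j : ℝ) = ∏ j ∈ Finset.range J, (B j : ℝ) := by
    symm
    apply Finset.prod_subset
    · intro j hj
      rw [Finset.mem_range] at hj ⊢
      omega
    · intro j _ hj
      rw [Finset.mem_range, not_lt] at hj
      rw [hB j hj]
      simp
  rw [h2] at h1
  convert h1 using 5

end Pool.Agent.H43.SAK
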