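import Mathlib
import Pool.Agent.H43.SAK.Stmts

/-!
Project SAK, module PM: the polynomial method with multiplicities at the points.
-/

namespace Pool.Agent.H43.SAK

open Finset

/-- a polynomial vanishing to order `r` at the origin is divisible by `y^r` on the line `y w` -/
lemma pm_dvd {σ F R : Type} [Fintype σ] [Field F] [CommRing R] [Algebra F R]
    (Q : MvPolynomial σ F) (r : ℕ) (h : ∀ β : σ →₀ ℕ, (∑ i, β i) < r → Q.coeff β = 0)
    (y : R) (w : σ → F) :
    y ^ r ∣ MvPolynomial.aeval (fun i => y * algebraMap F R (w i)) Q := by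
  rw [MvPolynomial.aeval_def, MvPolynomial.eval₂_eq']
  apply Finset.dvd_sum
  intro β hβ
  have hr : r ≤ ∑ i, β i := by
    by_contra hc
    exact (MvPolynomial.mem_support_iff.mp hβ) (h β (not_le.mp hc))
  have e : ∏ i, (y * algebraMap F R (w i)) ^ β i = y ^ (∑ i, β i) * ∏ i, algebraMap F R (w i) ^ β i := by
    rw [← Finset.prod_pow_eq_pow_sum, ← Finset.prod_mul_distrib]
    exact Finset.prod_congr rfl fun i _ => mul_pow _ _ _
  rw [e]
  exact Dvd.dvd.mul_left (Dvd.dvd.mul_right (pow_dvd_pow y hr) _) _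

/-- the shifted polynomial -/
noncomputable def pmShift {σ F : Type} [Field F] (e : σ → F) : MvPolynomial σ F →ₐ[F] MvPolynomial σ F :=
  MvPolynomial.aeval (fun i => MvPolynomial.X i + MvPolynomial.C (e i))

lemma pm_shift {σ F R : Type} [Fintype σ] [Field F] [CommRing R] [Algebra F R]
    (P : MvPolynomial σ F) (e w : σ → F) (y : R) :
    MvPolynomial.aeval (fun i => y * algebraMap F R (w i)) (pmShift e P) =
      MvPolynomial.aeval (fun i => algebraMap F R (e i) + y * algebraMap F R (w i)) P := by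
  unfold pmShift
  rw [← AlgHom.comp_apply, MvPolynomial.comp_aeval]
  congr 2
  funext i
  simp [add_comm]

/-- degree and leading coefficient of a product -/
lemma pm_prod {F ι : Type} [Field F] (s : Finset ι) (g : ι → Polynomial F) (n : ι → ℕ)
    (h : ∀ i ∈ s, (g i).natDegree ≤ n i) :
    (∏ i ∈ s, g i).natDegree ≤ ∑ i ∈ s, n i ∧
      (∏ i ∈ s, g i).coeff (∑ i ∈ s, n i) = ∏ i ∈ s, (g i).coeff (n i) := by
  classical
  induction s using Finset.induction_on with
  | empty => simp
  | insert a s ha ih =>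
    obtain ⟨h1, h2⟩ := ih fun i hi => h i (Finset.mem_insert_of_mem hi)
    have h3 := h a (Finset.mem_insert_self a s)
    rw [Finset.prod_insert ha, Finset.sum_insert ha, Finset.prod_insert ha]
    refine ⟨Polynomial.natDegree_mul_le_of_le h3 h1, ?_⟩
    rw [Polynomial.coeff_mul_add_eq_of_natDegree_le h3 h1, h2]

/-- the term of the polynomial on the line -/
lemma pm_term {F : Type} [Field F] (m : ℕ) (u v : Fin m → F) (α : Fin m → ℕ) (b : ℕ) :
    ((∏ i, (Polynomial.C (u i) + Polynomial.X * Polynomial.C (v i)) ^ α i) * Polynomial.X ^ b).natDegree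
        ≤ (∑ i, α i) + b ∧
      ((∏ i, (Polynomial.C (u i) + Polynomial.X * Polynomial.C (v i)) ^ α i) * Polynomial.X ^ b).coeff
        ((∑ i, α i) + b) = ∏ i, v i ^ α i := by
  have hd : ∀ i, (Polynomial.C (u i) + Polynomial.X * Polynomial.C (v i)).natDegree ≤ 1 := by
    intro i
    refine Polynomial.natDegree_add_le_of_degree_le ?_ ?_
    · simp
    · refine (Polynomial.natDegree_mul_le).trans ?_
      simp
  have hp : ∀ i, ((Polynomial.C (u i) + Polynomial.X * Polynomial.C (v i)) ^ α i).natDegree ≤ α i := by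
    intro i
    refine (Polynomial.natDegree_pow_le_of_le (α i) (hd i)).trans ?_
    simp
  have hc : ∀ i, ((Polynomial.C (u i) + Polynomial.X * Polynomial.C (v i)) ^ α i).coeff (α i)
      = v i ^ α i := by
    intro i
    have h := Polynomial.coeff_pow_of_natDegree_le (m := α i) (n := 1) (hd i)
    rw [mul_one] at h
    rw [h]
    congr 1
    rw [Polynomial.coeff_add, Polynomial.coeff_X_mul, Polynomial.coeff_C]
    simp
  obtain ⟨h1, h2⟩ := pm_prod Finset.univ
    (fun i => (Polynomial.C (u i) + Polynomial.X * Polynomial.C (v i)) ^ α i) α (fun i _ => hp i)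
  refine ⟨Polynomial.natDegree_mul_le_of_le h1 (by simp), ?_⟩
  rw [Polynomial.coeff_mul_add_eq_of_natDegree_le h1 (by simp), h2, Polynomial.coeff_X_pow, if_pos rfl,
    mul_one]
  exact Finset.prod_congr rfl fun i _ => hc i

/-- the monomials -/
noncomputable def pmMono {F : Type} [Field F] {m : ℕ} (k : (_ : Fin m → ℕ) × ℕ) :
    MvPolynomial (Option (Fin m)) F :=
  (∏ i, MvPolynomial.X (some i) ^ k.1 i) * MvPolynomial.X none ^ k.2

/-- points of the space with the height as last coordinate -/
def pmPt {F : Type} {m : ℕ} (t : F) (y : Fin m → F) : Option (Fin m) → F := fun o => o.elim t y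

/-- the restriction of the polynomial to the line -/
noncomputable def pmLine {F : Type} [Field F] {m : ℕ} (u v : Fin m → F)
    (P : MvPolynomial (Option (Fin m)) F) : Polynomial F :=
  MvPolynomial.aeval (fun o : Option (Fin m) =>
    o.elim Polynomial.X (fun i => Polynomial.C (u i) + Polynomial.X * Polynomial.C (v i))) P

lemma pm_line_dvd {F : Type} [Field F] {m : ℕ} (u v : Fin m → F) (t : F) (r : ℕ)
    (P : MvPolynomial (Option (Fin m)) F)
    (h : ∀ β : Option (Fin m) →₀ ℕ, (∑ i, β i) < r →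
      (pmShift (pmPt t (u + t • v)) P).coeff β = 0) :
    (Polynomial.X - Polynomial.C t) ^ r ∣ pmLine u v P := by
  have h1 := pm_dvd (R := Polynomial F) _ r h (Polynomial.X - Polynomial.C t) (pmPt 1 v)
  rw [pm_shift] at h1
  have e : (fun o : Option (Fin m) =>
      o.elim Polynomial.X (fun i => Polynomial.C (u i) + Polynomial.X * Polynomial.C (v i))) =
      fun o => algebraMap F (Polynomial F) (pmPt t (u + t • v) o) +
        (Polynomial.X - Polynomial.C t) * algebraMap F (Polynomial F) (pmPt 1 v o) := by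
    funext o
    rcases o with _ | i
    · simp [pmPt]
    · simp [pmPt, Polynomial.algebraMap_eq]
      ring
  rw [pmLine, e]
  exact h1

lemma pm_line_mono {F : Type} [Field F] {m : ℕ} (u v : Fin m → F) (k : (_ : Fin m → ℕ) × ℕ) :
    pmLine u v (pmMono k) =
      (∏ i, (Polynomial.C (u i) + Polynomial.X * Polynomial.C (v i)) ^ k.1 i) * Polynomial.X ^ k.2 := by
  simp [pmLine, pmMono]

theorem pm (hM : MonSt) : PmSt := by
  classical
  intro p m r _ D x Θ
  obtain ⟨Δ, hΔc, hΔ, hind⟩ := hM p m D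
  rcases Nat.eq_zero_or_pos (r * Θ.card - m * (p - 1)) with h0 | hpos
  · rw [h0]; simp
  have hlt : m * (p - 1) < r * Θ.card := by omega
  have hrpos : 0 < r := by
    rcases Nat.eq_zero_or_pos r with h | h
    · rw [h] at hlt; simp at hlt
    · exact h
  by_contra hcon
  push Not at hcon
  set s : ℕ := r * Θ.card - 1 with hs
  -- indices of the coefficients
  set I : Finset ((_ : Fin m → ℕ) × ℕ) := Δ.sigma (fun α => Finset.range (s + 1 - ∑ i, α i)) with hI
  have hIdeg : ∀ k ∈ I, (∑ i, k.1 i) + k.2 ≤ s := by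
    intro k hk
    rw [hI, Finset.mem_sigma, Finset.mem_range] at hk
    omega
  have hIΔ : ∀ k ∈ I, k.1 ∈ Δ := by
    intro k hk
    rw [hI, Finset.mem_sigma] at hk
    exact hk.1
  have hIcard : D.card * (r * Θ.card - m * (p - 1)) ≤ I.card := by
    rw [hI, Finset.card_sigma, ← hΔc, ← smul_eq_mul, ← Finset.sum_const]
    apply Finset.sum_le_sum
    intro α hα
    rw [Finset.card_range]
    have : ∑ i, α i ≤ m * (p - 1) := by
      refine (Finset.sum_le_card_nsmul Finset.univ α (p - 1) fun i _ => hΔ α hα i).trans ?_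
      simp
    omega
  -- points and multi-indices
  set E : Finset ((_ : ZMod p) × (Fin m → ZMod p)) := Θ.sigma (fun t => sl D x t) with hE
  have hEcard : E.card = ∑ t ∈ Θ, (sl D x t).card := by rw [hE, Finset.card_sigma]
  set B := (Finset.univ : Finset (Option (Option (Fin m)))).finsuppAntidiag (r - 1) with hB
  have hBcard : B.card = (m + r).choose (m + 1) := by
    rw [hB, Finset.card_finsuppAntidiag_nat_eq_choose]
    have h1 : (Finset.univ : Finset (Option (Option (Fin m)))).card + (r - 1) - 1 = m + r := by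
      simp
      omega
    rw [h1]
    apply Nat.choose_symm_of_eq_add
    omega
  -- the linear map
  let Pl : (I → ZMod p) →ₗ[ZMod p] MvPolynomial (Option (Fin m)) (ZMod p) :=
    Fintype.linearCombination (ZMod p) (fun k : I => pmMono k.1)
  let Φ : (I → ZMod p) →ₗ[ZMod p] (E × B → ZMod p) :=
    LinearMap.pi (fun eb => (MvPolynomial.lcoeff (ZMod p)
      (Finsupp.equivFunOnFinite.symm (fun i => eb.2.1 (some i)))) ∘ₗ
        (pmShift (pmPt eb.1.1.1 eb.1.1.2)).toLinearMap ∘ₗ Pl)
  have hker : LinearMap.ker Φ ≠ ⊥ := by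
    apply LinearMap.ker_ne_bot_of_finrank_lt
    rw [Module.finrank_fintype_fun_eq_card, Module.finrank_fintype_fun_eq_card, Fintype.card_prod,
      Fintype.card_coe, Fintype.card_coe, Fintype.card_coe, hEcard, hBcard]
    exact lt_of_lt_of_le hcon hIcard
  obtain ⟨c, hc, hc0⟩ := (Submodule.ne_bot_iff _).mp hker
  rw [LinearMap.mem_ker] at hc
  have hvan : ∀ t ∈ Θ, ∀ v ∈ D, ∀ β : Option (Fin m) →₀ ℕ, (∑ i, β i) < r →
      (pmShift (pmPt t (x v + t • v)) (Pl c)).coeff β = 0 := by
    intro t ht v hv β hβ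
    have he : (⟨t, x v + t • v⟩ : (_ : ZMod p) × (Fin m → ZMod p)) ∈ E := by
      rw [hE, Finset.mem_sigma]
      exact ⟨ht, Finset.mem_image_of_mem _ hv⟩
    have hb : (Finsupp.equivFunOnFinite.symm
        (fun o : Option (Option (Fin m)) => o.elim (r - 1 - ∑ i, β i) β) :
          Option (Option (Fin m)) →₀ ℕ) ∈ B := by
      rw [hB, Finset.mem_finsuppAntidiag]
      refine ⟨?_, Finset.subset_univ _⟩
      rw [Fintype.sum_option]
      simp only [Finsupp.equivFunOnFinite_symm_apply_apply, Option.elim]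
      omega
    have h1 := congrFun hc (⟨_, he⟩, ⟨_, hb⟩)
    have h2 : (Finsupp.equivFunOnFinite.symm (fun i : Option (Fin m) =>
        (Finsupp.equivFunOnFinite.symm
          (fun o : Option (Option (Fin m)) => o.elim (r - 1 - ∑ i, β i) β) :
            Option (Option (Fin m)) →₀ ℕ) (some i)) : Option (Fin m) →₀ ℕ) = β := by
      ext i
      simp
    simp only [Φ, LinearMap.pi_apply, LinearMap.comp_apply] at h1
    rw [h2] at h1
    exact h1
  -- the restriction to the lines
  have hline : ∀ v : Fin m → ZMod p, pmLine (x v) v (Pl c) = ∑ k : I, Polynomial.C (c k) *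
      ((∏ i, (Polynomial.C (x v i) + Polynomial.X * Polynomial.C (v i)) ^ k.1.1 i) *
        Polynomial.X ^ k.1.2) := by
    intro v
    have : Pl c = ∑ k : I, c k • pmMono k.1 := by
      simp [Pl, Fintype.linearCombination_apply]
    rw [this, pmLine, map_sum]
    apply Finset.sum_congr rfl
    intro k _
    rw [map_smul, Polynomial.smul_eq_C_mul]
    congr 1
    exact pm_line_mono (x v) v k.1
  -- the largest degree
  obtain ⟨k', hk'⟩ : ∃ k, c k ≠ 0 := by
    by_contra hne
    push Not at hne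
    exact hc0 (funext hne)
  obtain ⟨k0, hk0, hmax⟩ := Finset.exists_max_image (Finset.univ.filter (fun k : I => c k ≠ 0))
    (fun k => (∑ i, k.1.1 i) + k.1.2) ⟨k', by simp [hk']⟩
  set s' := (∑ i, k0.1.1 i) + k0.1.2 with hs'
  have hmax' : ∀ k : I, c k ≠ 0 → (∑ i, k.1.1 i) + k.1.2 ≤ s' := fun k hk => hmax k (by simp [hk])
  have hk0' : c k0 ≠ 0 := (Finset.mem_filter.mp hk0).2
  -- the top coefficients
  set c' : (Fin m → ℕ) → ZMod p := fun α =>
    ∑ k : I, if k.1.1 = α ∧ (∑ i, k.1.1 i) + k.1.2 = s' then c k else 0 with hc'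
  have hk0Δ : k0.1.1 ∈ Δ := hIΔ k0.1 k0.2
  have hc'0 : c' k0.1.1 = c k0 := by
    rw [hc']
    simp only
    rw [Finset.sum_eq_single k0]
    · simp [hs']
    · intro k _ hk
      rw [if_neg]
      rintro ⟨h1, h2⟩
      apply hk
      apply Subtype.ext
      have h3 : k.1.2 = k0.1.2 := by
        rw [h1] at h2
        omega
      exact Sigma.ext h1 (heq_of_eq h3)
    · intro h; exact absurd (Finset.mem_univ _) h
  have hcoef : ∀ v : Fin m → ZMod p, (pmLine (x v) v (Pl c)).coeff s' =
      ∑ α ∈ Δ, c' α * ∏ i, v i ^ α i := by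
    intro v
    rw [hline, Polynomial.finsetSum_coeff]
    have h1 : ∀ k : I, (Polynomial.C (c k) *
        ((∏ i, (Polynomial.C (x v i) + Polynomial.X * Polynomial.C (v i)) ^ k.1.1 i) *
          Polynomial.X ^ k.1.2)).coeff s' =
        if (∑ i, k.1.1 i) + k.1.2 = s' then c k * ∏ i, v i ^ k.1.1 i else 0 := by
      intro k
      rw [Polynomial.coeff_C_mul]
      obtain ⟨h2, h3⟩ := pm_term m (x v) v k.1.1 k.1.2
      by_cases hck : c k = 0
      · simp [hck]
      · rcases (hmax' k hck).lt_or_eq with h4 | h4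
        · rw [if_neg h4.ne, Polynomial.coeff_eq_zero_of_natDegree_lt (lt_of_le_of_lt h2 h4), mul_zero]
        · rw [if_pos h4, ← h4, h3]
    rw [Finset.sum_congr rfl fun k _ => h1 k]
    simp only [hc', Finset.sum_mul]
    rw [Finset.sum_comm]
    apply Finset.sum_congr rfl
    intro k _
    have hkΔ : k.1.1 ∈ Δ := hIΔ k.1 k.2
    rw [Finset.sum_eq_single k.1.1]
    · by_cases h : (∑ i, k.1.1 i) + k.1.2 = s' <;> simp [h]
    · intro α _ hα
      rw [if_neg (fun h => hα h.1.symm), zero_mul]
    · intro h; exact absurd hkΔ h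
  obtain ⟨v, hv, hvne⟩ : ∃ v ∈ D, ∑ α ∈ Δ, c' α * ∏ i, v i ^ α i ≠ 0 := by
    by_contra hne
    push Not at hne
    exact hk0' (hc'0 ▸ hind c' hne _ hk0Δ)
  have hfne : pmLine (x v) v (Pl c) ≠ 0 := by
    intro h
    apply hvne
    rw [← hcoef, h, Polynomial.coeff_zero]
  have hfdeg : (pmLine (x v) v (Pl c)).natDegree ≤ s := by
    rw [hline]
    apply Polynomial.natDegree_sum_le_of_forall_le
    intro k _
    refine (Polynomial.natDegree_C_mul_le _ _).trans ?_
    exact (pm_term m (x v) v k.1.1 k.1.2).1.trans (hIdeg k.1 k.2)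
  have hdvd : (∏ t ∈ Θ, (Polynomial.X - Polynomial.C t) ^ r) ∣ pmLine (x v) v (Pl c) := by
    apply Finset.prod_dvd_of_coprime
    · intro a _ b _ hab
      exact (Polynomial.isCoprime_X_sub_C_of_isUnit_sub
        (isUnit_iff_ne_zero.mpr (sub_ne_zero.mpr hab))).pow
    · intro t ht
      exact pm_line_dvd (x v) v t r (Pl c) (hvan t ht v hv)
  have hdeg : (∏ t ∈ Θ, (Polynomial.X - Polynomial.C t) ^ r).natDegree = r * Θ.card := by
    rw [Polynomial.natDegree_prod_of_monic _ _ (fun t _ => (Polynomial.monic_X_sub_C t).pow r)]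
    simp [mul_comm]
  have h1 := Polynomial.natDegree_le_of_dvd hdvd hfne
  rw [hdeg] at h1
  omega

end Pool.Agent.H43.SAK
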